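import Pool.Agent.Q212.MengerE

/-!
# `MP_e0f6ac_lc`, Q2: no, already for Cohen forcing and the Cantor space

*Let `P` be strongly proper for stationarily many models and let `(X, τ)` be a space on which II has
a winning strategy in the `k`-Menger game. Must II still have a winning strategy in the `k`-Menger
game on `X` after forcing with `P`?*

No. Let `P` be Cohen forcing, which adds one Cohen real `c`, and let `X` be the Cantor space of the
ground model. Since `X` is compact, it belongs to each `k`-cover and II wins in the first
inning. In the extension player I can use the `k`-covers `U_h` which consist of the sets
`{x ∈ X | x and h(c) differ below n}` (`n ∈ ω`), where `h` is a continuous injection of the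
Cantor space into itself from the ground model (note that `h(c)` is not in the ground model).
Suppose that `p` forces that `S` is a winning strategy of II. For every finite sequence `s` of such
covers and every condition `q ≤ p`, all but countably many points `z` of the ground model have the
following property: some `r ≤ q` and some `h` are such that `r` forces that the answer of `S` to
`(s, U_h)` does not cover `z` (otherwise apply the perfect set theorem to the closed set of the
exceptions to find `h`, and consider the answer to `U_h`). Hence all but countably many `z` have
this property for all positions `s` in a suitable countable family which is closed under
the moves used and for all `q`; for such a `z` the generic filter produces a run in which `z`, and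
so the compact set `{z}`, is never covered.

The forcing relation. A sentence of the forcing language of `P` is represented by the set of the
conditions which force it (`Pool.Agent.Helper669.Forcing`). A name of a subset of `X` is a map from
`X` to sets of conditions, and a name of a family of subsets of `X` is a map from names of subsets
to sets of conditions. All the definitions are in `Pool.Agent.Q212.MengerF`; Cohen forcing
`Coh` is defined in `Pool.Agent.Q212.MengerC`.
-/

set_option autoImplicit false

namespace Pool.Agent.Results.MP_e0f6ac_lc.KMengerCohen

open Pool.Agent.Q212.MG Pool.Agent.Helper669.Forcing

universe v

/-- **Main theorem (Q2).** Cohen forcing `Coh` is strongly proper for stationarily many models,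
player II has a winning strategy in the `k`-Menger game on the Cantor space `ℕ → Bool`, and
every condition of `Coh` forces that in the extension player II has no winning strategy in the
`k`-Menger game on the Cantor space of the ground model. -/
theorem result : StronglyProperStat.{0, v} Coh ∧ WinsKMenger (ℕ → Bool) ∧
    ∀ p : Coh, p ∈ fnot (KMengerForced Coh (ℕ → Bool)) :=
  ⟨stronglyProper_of_countable Coh, winsKMenger_of_compact _, not_kMengerForced⟩

end Pool.Agent.Results.MP_e0f6ac_lc.KMengerCohen
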